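import Pool.Agent.H921R2.TatePole.KRepulsion

set_option autoImplicit false

/-!
# Base change of the pole order at the edge: a repulsion theorem for number fields

`V` stands for `H^{2m}(X)` (or a direct summand of it) of a smooth projective variety `X / ℚ`, given
by its Frobenius eigenvalues `β p j` (`j ∈ J`, `|J| = dim V`), of absolute value at most `p ^ m`
outside a finite set `S` of primes.  Definitions used below:

* `eulerL β s = ∏_p ∏_j (1 - β(p,j) p^{-s})⁻¹`, the L-function of `V`;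
* `kL γ s = ∏_v ∏_j (1 - γ(v,j) N(v)^{-s})⁻¹`, the product over the primes `v` of `K`; for
  `γ(v,j) = β(p,j)^f` if `N(v) = p^f`, `p ∉ S`, it is the L-function of `V` over `K`;
* `selfL β S s = ∏_{p ∉ S} ∏_{j,k} (1 - β(p,j) conj β(p,k) p^{-s})⁻¹`, that of `V ⊗ V̄`;
* `HasOrderAt f s₀ k`: `x^{-k} f(s₀ + x)` has a finite nonzero limit as real `x → 0+`.
-/

open Complex Filter Topology NumberField IsDedekindDomain Pool.Agent.H921R2.TatePole
open scoped TensorProduct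

namespace Pool.Agent.Results.MP_058a58_ag.BaseChangeRepulsion

/-- Let `K_i` be finitely many number fields `≠ ℚ`, pairwise linearly disjoint over `ℚ`, and let
`r_i` be the number of simple factors of `K_i ⊗ K_i`.  Then, unconditionally, as `x → 0+`,
`(log |L(V)|)² + ∑_i (log |L(V_{K_i})| - log |L(V)|)² / (r_i - 1) ≤
  log(1/x) · log |L(V ⊗ V̄, 2m+1+x)| + O(log (1/x))` (at `m+1+x`).
Hence if the orders `k` of `L(V, s)` and `k_i` of `L(V_{K_i}, s)` at `m + 1` exist, then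
`k² + ∑_i (k_i - k)² / (r_i - 1) ≤ (dim V)²`, and `≤ M` if `L(V ⊗ V̄, s)` has a pole of order `M`
at `2m+1`. -/
theorem result (m : ℕ) {J : Type} [Fintype J] (β : Nat.Primes → J → ℂ)
    (S : Finset Nat.Primes) (hβ : ∀ p ∉ S, ∀ j, ‖β p j‖ ≤ ((p : ℕ) : ℝ) ^ m)
    (hβS : ∀ p ∈ S, ∀ j, β p j * ((p : ℕ) : ℂ) ^ (-((m : ℂ) + 1)) ≠ 1)
    {ι : Type} [Fintype ι] (K : ι → Type) [∀ i, Field (K i)] [∀ i, NumberField (K i)]
    (hn : ∀ i, 1 < Module.finrank ℚ (K i))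
    (hd : ∀ i j, i ≠ j → IsField (K i ⊗[ℚ] K j))
    (γ : ∀ i, HeightOneSpectrum (𝓞 (K i)) → J → ℂ)
    (hγ : ∀ (i : ι) (v : HeightOneSpectrum (𝓞 (K i))) (p : Nat.Primes) (f : ℕ),
      Ideal.absNorm v.asIdeal = (p : ℕ) ^ f → p ∉ S → ∀ j, γ i v j = β p j ^ f)
    (hγS : ∀ (i : ι) (v : HeightOneSpectrum (𝓞 (K i))) (p : Nat.Primes) (f : ℕ),
      Ideal.absNorm v.asIdeal = (p : ℕ) ^ f → p ∈ S →
        ∀ j, γ i v j * (((Ideal.absNorm v.asIdeal : ℕ) : ℂ)) ^ (-((m : ℂ) + 1)) ≠ 1) :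
    (∃ C : ℝ, ∀ᶠ x : ℝ in 𝓝[>] 0,
      Real.log ‖eulerL β ((m : ℂ) + 1 + x)‖ ^ 2 +
      ∑ i, (Real.log ‖kL (γ i) ((m : ℂ) + 1 + x)‖ - Real.log ‖eulerL β ((m : ℂ) + 1 + x)‖) ^ 2 /
        ((Nat.card (MaximalSpectrum (K i ⊗[ℚ] K i)) : ℝ) - 1) ≤
        Real.log (1 / x) * Real.log ‖selfL β S (2 * (m : ℂ) + 1 + x)‖ + C * Real.log (1 / x)) ∧
    (∀ (k : ℤ) (k' : ι → ℤ), HasOrderAt (eulerL β) ((m : ℂ) + 1) k →
      (∀ i, HasOrderAt (kL (γ i)) ((m : ℂ) + 1) (k' i)) →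
      (k : ℝ) ^ 2 + ∑ i, ((k' i : ℝ) - k) ^ 2 /
          ((Nat.card (MaximalSpectrum (K i ⊗[ℚ] K i)) : ℝ) - 1) ≤ (Fintype.card J : ℝ) ^ 2 ∧
      ∀ M : ℤ, HasOrderAt (selfL β S) (2 * (m : ℂ) + 1) (-M) →
        (k : ℝ) ^ 2 + ∑ i, ((k' i : ℝ) - k) ^ 2 /
          ((Nat.card (MaximalSpectrum (K i ⊗[ℚ] K i)) : ℝ) - 1) ≤ M) := by
  have h1 := kRepulsion m β S hβ hβS K hn hd γ
    (fun i v hv j => hγ i v (below v) (deg v) (nm_eq v).1 hv j)
    (fun i v hv j => hγS i v (below v) (deg v) (nm_eq v).1 hv j)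
  refine ⟨h1, fun k k' hk hk' => ?_⟩
  obtain ⟨C, hC⟩ := h1
  have hΛ := log_one_div_tendsto
  set r : ι → ℝ := fun i => (Nat.card (MaximalSpectrum (K i ⊗[ℚ] K i)) : ℝ) - 1 with hr
  have hlim : Tendsto (fun x : ℝ =>
      (Real.log ‖eulerL β ((m : ℂ) + 1 + x)‖ / Real.log (1 / x)) ^ 2 +
      ∑ i, (Real.log ‖kL (γ i) ((m : ℂ) + 1 + x)‖ / Real.log (1 / x) -
        Real.log ‖eulerL β ((m : ℂ) + 1 + x)‖ / Real.log (1 / x)) ^ 2 / r i) (𝓝[>] 0)
      (𝓝 ((-(k : ℝ)) ^ 2 + ∑ i, (-(k' i : ℝ) - -(k : ℝ)) ^ 2 / r i)) :=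
    (hk.log_tendsto.pow 2).add (tendsto_finsetSum _ fun i _ =>
      (((hk' i).log_tendsto.sub hk.log_tendsto).pow 2).div_const (r i))
  have hC0 : Tendsto (fun x : ℝ => C / Real.log (1 / x)) (𝓝[>] 0) (𝓝 0) :=
    tendsto_const_nhds.div_atTop hΛ
  have key : ∀ᶠ x : ℝ in 𝓝[>] 0,
      (Real.log ‖eulerL β ((m : ℂ) + 1 + x)‖ / Real.log (1 / x)) ^ 2 +
      ∑ i, (Real.log ‖kL (γ i) ((m : ℂ) + 1 + x)‖ / Real.log (1 / x) -
        Real.log ‖eulerL β ((m : ℂ) + 1 + x)‖ / Real.log (1 / x)) ^ 2 / r i ≤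
      Real.log ‖selfL β S (2 * (m : ℂ) + 1 + x)‖ / Real.log (1 / x) + C / Real.log (1 / x) := by
    filter_upwards [hC, hΛ.eventually_ge_atTop 1] with x hx h1x
    have hpos : 0 < Real.log (1 / x) := by linarith
    have e : (Real.log ‖eulerL β ((m : ℂ) + 1 + x)‖ / Real.log (1 / x)) ^ 2 +
        ∑ i, (Real.log ‖kL (γ i) ((m : ℂ) + 1 + x)‖ / Real.log (1 / x) -
        Real.log ‖eulerL β ((m : ℂ) + 1 + x)‖ / Real.log (1 / x)) ^ 2 / r i =
        (Real.log ‖eulerL β ((m : ℂ) + 1 + x)‖ ^ 2 +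
        ∑ i, (Real.log ‖kL (γ i) ((m : ℂ) + 1 + x)‖ -
          Real.log ‖eulerL β ((m : ℂ) + 1 + x)‖) ^ 2 / r i) / (Real.log (1 / x)) ^ 2 := by
      rw [add_div, Finset.sum_div, div_pow]
      congr 1
      refine Finset.sum_congr rfl fun i _ => ?_
      rw [← sub_div, div_pow, div_div, div_div, mul_comm]
    rw [e, ← add_div, div_le_div_iff₀ (by positivity) hpos]
    calc _ ≤ (Real.log (1 / x) * Real.log ‖selfL β S (2 * (m : ℂ) + 1 + x)‖ +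
          C * Real.log (1 / x)) * Real.log (1 / x) := mul_le_mul_of_nonneg_right hx hpos.le
      _ = _ := by ring
  have hsq : (-(k : ℝ)) ^ 2 + ∑ i, (-(k' i : ℝ) - -(k : ℝ)) ^ 2 / r i =
      (k : ℝ) ^ 2 + ∑ i, ((k' i : ℝ) - k) ^ 2 / r i := by
    rw [neg_sq]
    congr 1
    refine Finset.sum_congr rfl fun i _ => ?_
    congr 1
    ring
  rw [hsq] at hlim
  refine ⟨?_, fun M hM => ?_⟩
  · obtain ⟨D, hD⟩ := self_le m β S hβ
    have hD0 : Tendsto (fun x : ℝ => D / Real.log (1 / x)) (𝓝[>] 0) (𝓝 0) :=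
      tendsto_const_nhds.div_atTop hΛ
    have hup : Tendsto (fun x : ℝ => (Fintype.card J : ℝ) ^ 2 + D / Real.log (1 / x) +
        C / Real.log (1 / x)) (𝓝[>] 0) (𝓝 ((Fintype.card J : ℝ) ^ 2 + 0 + 0)) :=
      (tendsto_const_nhds.add hD0).add hC0
    have hle := le_of_tendsto_of_tendsto hlim hup (by
      filter_upwards [key, hD, hΛ.eventually_ge_atTop 1] with x hx hDx h1x
      have hpos : 0 < Real.log (1 / x) := by linarith
      refine hx.trans (add_le_add ?_ le_rfl)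
      rw [div_le_iff₀ hpos, add_mul, div_mul_cancel₀ _ hpos.ne']
      exact hDx)
    rw [add_zero, add_zero] at hle
    exact hle
  · have hM' := hM.log_tendsto
    have hup := hM'.add hC0
    have hle := le_of_tendsto_of_tendsto hlim hup key
    rw [add_zero] at hle
    push_cast at hle
    rw [neg_neg] at hle
    exact hle

end Pool.Agent.Results.MP_058a58_ag.BaseChangeRepulsion
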