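import Pool.Agent.H916K.MainFour
import Pool.Agent.H916K.MainThree
import Pool.Agent.H916K.Stick

/-!
# The pole of the L-function of a diagonal hypersurface

Every eigenline of the cohomology of a diagonal hypersurface of degree `m` over the rational numbers
on which the Galois group of the field of `m`-th roots of unity acts trivially belongs to the family
generated by the standard characters, whose eigenlines are algebraic. The degrees `m` have two or
three different prime factors, with conditions on the quadratic residues.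
-/

namespace Pool.Agent.Results.MP_058a58_ag.DiagonalPole

open Pool.Agent.H916R2 Pool.Agent.H916K

/-- The degrees: either `m = p ^ a * q ^ b` or `m = 2 * p ^ a * q ^ b` with different primes `p`, `q`,
`q` odd, which are not both squares modulo each other, where `4` divides `m` if `p = 2`; or
`m = p ^ a * q ^ b * r ^ d` or `m = 2 * p ^ a * q ^ b * r ^ d` with primes `p`, `q`, `r` such that `q`
is not a square modulo `p`, `r` is not a square modulo `q` and `p` is not a square modulo `r`, while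
one of the three other residues is a square. -/
def PoleDegree (m : ℕ) : Prop :=
  (∃ p q a b : ℕ, p.Prime ∧ q.Prime ∧ q ≠ 2 ∧ p ≠ q ∧
    ¬ (IsSquare ((q : ℕ) : ZMod p) ∧ IsSquare ((p : ℕ) : ZMod q)) ∧ 0 < a ∧ 0 < b ∧
    (m = p ^ a * q ^ b ∨ m = 2 * (p ^ a * q ^ b)) ∧ (p = 2 → 4 ∣ m)) ∨
  (∃ p q r a b d : ℕ, p.Prime ∧ q.Prime ∧ r.Prime ∧ ¬ IsSquare ((q : ℕ) : ZMod p) ∧
    ¬ IsSquare ((r : ℕ) : ZMod q) ∧ ¬ IsSquare ((p : ℕ) : ZMod r) ∧
    (IsSquare ((r : ℕ) : ZMod p) ∨ IsSquare ((p : ℕ) : ZMod q) ∨ IsSquare ((q : ℕ) : ZMod r)) ∧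
    0 < a ∧ 0 < b ∧ 0 < d ∧ (m = p ^ a * q ^ b * r ^ d ∨ m = 2 * (p ^ a * q ^ b * r ^ d)))

theorem result {m : ℕ} (hm : PoleDegree m)
    {s : Multiset (ZMod m × ℤ)} (hs : s ≠ 0) (heven : Even (Multiset.card s))
    (h0 : ∀ z ∈ s, z.1 ≠ 0 ∧ z.2 ≠ 0) (hsum : (s.map Prod.fst).sum = 0)
    (hR : RationalClass m s) : Generated m (fun _ => False) (s.map Prod.fst) := by
  rcases hm with ⟨p, q, a, b, hp, hq, hq2, hpq, hsq, ha, hb, hm, h4⟩ |
    ⟨p, q, r, a, b, d, hp, hq, hr, n1, n2, n3, s1, ha, hb, hd, hm⟩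
  · have hpos : 2 ≤ p ^ a * q ^ b := by
      have h1 : 1 ≤ p ^ a := Nat.one_le_iff_ne_zero.mpr (pow_pos hp.pos a).ne'
      have h2 : 2 ≤ q ^ b := le_trans hq.two_le (Nat.le_self_pow hb.ne' q)
      nlinarith
    have hm2 : 2 ≤ m := by rcases hm with h | h <;> omega
    have hH := hodge_of_rational hm2 (fun z hz => (h0 z hz).1) heven hsum (fun z hz => (h0 z hz).2) hR
    by_cases hp2 : p = 2
    · subst hp2
      have hsq2 : ¬ IsSquare ((2 : ℕ) : ZMod q) := by
        intro h
        refine hsq ⟨?_, h⟩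
        generalize ((q : ℕ) : ZMod 2) = x
        revert x; decide
      obtain ⟨e, he⟩ : ∃ e, 2 ^ e * q ^ b = m := by
        rcases hm with h | h
        · exact ⟨a, h.symm⟩
        · exact ⟨a + 1, by rw [h]; ring⟩
      have he2 : 2 ≤ e := by
        by_contra hlt
        have h5 : 4 ∣ m := h4 rfl
        have hodd : Odd (q ^ b) := (hq.odd_of_ne_two hq2).pow
        have h6 : e = 0 ∨ e = 1 := by omega
        obtain ⟨j, hj⟩ := hodd
        rcases h6 with h | h
        · rw [h, pow_zero, one_mul] at he; omega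
        · rw [h, pow_one] at he; omega
      exact main_four hq hq2 hsq2 he2 hb he hH hs (fun z hz => (h0 z hz).2) hR
    · obtain ⟨c, hc, hcm⟩ : ∃ c : ℕ, (c = 1 ∨ c = 2) ∧ c * (p ^ a * q ^ b) = m := by
        rcases hm with h | h
        · exact ⟨1, Or.inl rfl, by rw [h, one_mul]⟩
        · exact ⟨2, Or.inr rfl, by rw [h]⟩
      by_cases hleg : IsSquare ((q : ℕ) : ZMod p)
      · have hleg2 : ¬ IsSquare ((p : ℕ) : ZMod q) := fun h => hsq ⟨hleg, h⟩
        exact main_two hq hp hq2 hp2 hpq.symm hleg2 hb ha hc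
          (by rw [← hcm, Nat.mul_comm (q ^ b) (p ^ a)]) hH hs (fun z hz => (h0 z hz).2) hR
      · exact main_two hp hq hp2 hq2 hpq hleg ha hb hc hcm hH hs (fun z hz => (h0 z hz).2) hR
  · have two : ∀ n : ℕ, IsSquare ((n : ℕ) : ZMod 2) := by
      intro n
      generalize ((n : ℕ) : ZMod 2) = x
      revert x; decide
    have self : ∀ n : ℕ, IsSquare ((n : ℕ) : ZMod n) := fun n => ⟨0, by simp⟩
    have hp2 : p ≠ 2 := by rintro rfl; exact n1 (two q)
    have hq2 : q ≠ 2 := by rintro rfl; exact n2 (two r)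
    have hr2 : r ≠ 2 := by rintro rfl; exact n3 (two p)
    have hpq : p ≠ q := by rintro rfl; exact n1 (self p)
    have hqr : q ≠ r := by rintro rfl; exact n2 (self q)
    have hpr : p ≠ r := by rintro rfl; exact n3 (self p)
    have hpos : 2 ≤ p ^ a * q ^ b * r ^ d := by
      have h1 : 2 ≤ p ^ a := le_trans hp.two_le (Nat.le_self_pow ha.ne' p)
      have h2 : 0 < q ^ b := pow_pos hq.pos b
      have h3 : 0 < r ^ d := pow_pos hr.pos d
      calc 2 ≤ p ^ a := h1
        _ ≤ p ^ a * q ^ b := Nat.le_mul_of_pos_right _ h2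
        _ ≤ p ^ a * q ^ b * r ^ d := Nat.le_mul_of_pos_right _ h3
    have hm2 : 2 ≤ m := by rcases hm with h | h <;> omega
    have hH := hodge_of_rational hm2 (fun z hz => (h0 z hz).1) heven hsum (fun z hz => (h0 z hz).2) hR
    obtain ⟨c, hc, hcm⟩ : ∃ c : ℕ, (c = 1 ∨ c = 2) ∧ c * (p ^ a * q ^ b * r ^ d) = m := by
      rcases hm with h | h
      · exact ⟨1, Or.inl rfl, by rw [h, one_mul]⟩
      · exact ⟨2, Or.inr rfl, by rw [h]⟩
    exact main_three_cyc hp hq hr hp2 hq2 hr2 hpq hpr hqr n1 n2 n3 s1 ha hb hd hc hcm hH hs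
      (fun z hz => (h0 z hz).2) hR

end Pool.Agent.Results.MP_058a58_ag.DiagonalPole
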