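import Pool.Agent.H921R2.TatePole.FinalK

set_option autoImplicit false

/-!
# Base change of the pole order at the edge to radical fields of prime degree

`V` stands for `H^{2m}(X)` (or a direct summand of it) of a smooth projective variety `X / ℚ`, given
by its Frobenius eigenvalues `β p j` (`j ∈ J`, `|J| = dim V`), of absolute value at most `p ^ m`
outside a finite set `S` of primes.  Definitions used below:

* `eulerL β s = ∏_p ∏_j (1 - β(p,j) p^{-s})⁻¹`, the L-function of `V`;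
* `kL γ s = ∏_v ∏_j (1 - γ(v,j) N(v)^{-s})⁻¹`, the product over the primes `v` of `K`; for
  `γ(v,j) = β(p,j)^f` if `N(v) = p^f`, `p ∉ S`, it is the L-function of `V` over `K`;
* `HasOrderAt f s₀ k`: `x^{-k} f(s₀ + x)` has a finite nonzero limit as real `x → 0+`.
-/

open Complex Filter Topology NumberField IsDedekindDomain Pool.Agent.H921R2.TatePole

namespace Pool.Agent.Results.MP_058a58_ag.RadicalBaseChange

/-- Let `K = ℚ(θ)`, `θ ^ q ∈ ℚ`, be a field of prime degree `q` over `ℚ`.  Then, unconditionally, as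
`x → 0+`, `|log |L(V_K, m+1+x)| - log |L(V, m+1+x)|| ≤ (2 dim V / q) log(1/x) + O(1)`.  Hence if the
orders `k` and `k'` of `L(V, s)` and `L(V_K, s)` at `m + 1` exist, then `q |k' - k| ≤ 2 dim V`; in
particular `k' = k` as soon as `q > 2 dim V`. -/
theorem result (m : ℕ) {J : Type} [Fintype J] (β : Nat.Primes → J → ℂ)
    (S : Finset Nat.Primes) (hβ : ∀ p ∉ S, ∀ j, ‖β p j‖ ≤ ((p : ℕ) : ℝ) ^ m)
    (hβS : ∀ p ∈ S, ∀ j, β p j * ((p : ℕ) : ℂ) ^ (-((m : ℂ) + 1)) ≠ 1)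
    {K : Type} [Field K] [NumberField K] {q : ℕ} (hq : q.Prime) (hK : Module.finrank ℚ K = q)
    (θ : K) (hθ : θ ^ q ∈ Set.range (algebraMap ℚ K)) (hθ' : θ ∉ Set.range (algebraMap ℚ K))
    (γ : HeightOneSpectrum (𝓞 K) → J → ℂ)
    (hγ : ∀ (v : HeightOneSpectrum (𝓞 K)) (p : Nat.Primes) (f : ℕ),
      Ideal.absNorm v.asIdeal = (p : ℕ) ^ f → p ∉ S → ∀ j, γ v j = β p j ^ f)
    (hγS : ∀ (v : HeightOneSpectrum (𝓞 K)) (p : Nat.Primes) (f : ℕ),
      Ideal.absNorm v.asIdeal = (p : ℕ) ^ f → p ∈ S →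
        ∀ j, γ v j * (((Ideal.absNorm v.asIdeal : ℕ) : ℂ)) ^ (-((m : ℂ) + 1)) ≠ 1) :
    (∃ C : ℝ, ∀ᶠ x : ℝ in 𝓝[>] 0,
      |Real.log ‖kL γ ((m : ℂ) + 1 + x)‖ - Real.log ‖eulerL β ((m : ℂ) + 1 + x)‖| ≤
        2 * Fintype.card J / q * Real.log (1 / x) + C) ∧
    (∀ k k' : ℤ, HasOrderAt (eulerL β) ((m : ℂ) + 1) k → HasOrderAt (kL γ) ((m : ℂ) + 1) k' →
      q * |k' - k| ≤ 2 * Fintype.card J) := by
  have h1 := radical_base_change m β S hβ hβS hq hK θ hθ hθ' γ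
    (fun v hv j => hγ v (below v) (deg v) (nm_eq v).1 hv j)
    (fun v hv j => hγS v (below v) (deg v) (nm_eq v).1 hv j)
  refine ⟨h1, fun k k' hk hk' => ?_⟩
  obtain ⟨C, hC⟩ := h1
  have hΛ := log_one_div_tendsto
  have hq0 : (0 : ℝ) < q := by exact_mod_cast hq.pos
  have hlim : Tendsto (fun x : ℝ =>
      |Real.log ‖kL γ ((m : ℂ) + 1 + x)‖ / Real.log (1 / x) -
        Real.log ‖eulerL β ((m : ℂ) + 1 + x)‖ / Real.log (1 / x)|) (𝓝[>] 0)
      (𝓝 |-(k' : ℝ) - -(k : ℝ)|) := (hk'.log_tendsto.sub hk.log_tendsto).abs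
  have hup : Tendsto (fun x : ℝ => 2 * (Fintype.card J : ℝ) / q + C / Real.log (1 / x)) (𝓝[>] 0)
      (𝓝 (2 * (Fintype.card J : ℝ) / q + 0)) :=
    tendsto_const_nhds.add (tendsto_const_nhds.div_atTop hΛ)
  have hle := le_of_tendsto_of_tendsto hlim hup (by
    filter_upwards [hC, hΛ.eventually_ge_atTop 1] with x hx h1x
    have hpos : 0 < Real.log (1 / x) := by linarith
    rw [← sub_div, abs_div, abs_of_pos hpos, div_le_iff₀ hpos, add_mul,
      div_mul_cancel₀ _ hpos.ne']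
    exact hx)
  rw [add_zero, le_div_iff₀ hq0] at hle
  have e : |-(k' : ℝ) - -(k : ℝ)| = |(k' : ℝ) - k| := by
    rw [← abs_neg]; ring_nf
  rw [e] at hle
  have h2 : ((q : ℝ)) * |(k' : ℝ) - k| ≤ 2 * (Fintype.card J : ℝ) := by linarith
  exact_mod_cast h2

end Pool.Agent.Results.MP_058a58_ag.RadicalBaseChange
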