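import Pool.Agent.H921R2.TatePole.Repulsion

set_option autoImplicit false

/-!
# Orders of twisted L-functions at the edge: a repulsion theorem

`V` stands for `H^{2m}(X)` (or a direct summand of it) of a smooth projective variety `X / ℚ`, given
by its Frobenius eigenvalues `β p j` (`j ∈ J`, `|J| = dim V`), of absolute value at most `p ^ m`
outside a finite set `S` of primes.  Definitions used below (in
`Pool.Agent.H921R2.TatePole.Final`):

* `twistedL β χ s = ∏_p ∏_j (1 - χ(p) β(p,j) p^{-s})⁻¹`, the L-function of `V ⊗ χ`;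
* `selfL β S s = ∏_{p ∉ S} ∏_{j,k} (1 - β(p,j) conj β(p,k) p^{-s})⁻¹`, that of `V ⊗ V̄`;
* `HasOrderAt f s₀ k`: `x^{-k} f(s₀ + x)` has a finite nonzero limit as real `x → 0+`.
-/

open Complex Filter Topology Pool.Agent.H921R2.TatePole

namespace Pool.Agent.Results.MP_058a58_ag.TwistRepulsion

/-- Let `(χ_i, τ_i)` be finitely many pairwise distinct (inequivalent) pairs of a Dirichlet character
and a real number.  Then, unconditionally, as `x → 0+`,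
`∑_i (log |L(V ⊗ χ_i, m+1+iτ_i+x)|)² ≤ log(1/x) · log |L(V ⊗ V̄, 2m+1+x)| + O(log (1/x))`.
Hence if the order `k_i` of `L(V ⊗ χ_i, s)` at `m + 1 + iτ_i` exists for all `i`, then
`∑_i k_i² ≤ (dim V)²`, and `∑_i k_i² ≤ M` if `L(V ⊗ V̄, s)` has a pole of order `M` at `2m+1`. -/
theorem result (m : ℕ) {J : Type} [Fintype J] (β : Nat.Primes → J → ℂ)
    (S : Finset Nat.Primes) (hβ : ∀ p ∉ S, ∀ j, ‖β p j‖ ≤ ((p : ℕ) : ℝ) ^ m)
    {ι : Type} [Fintype ι] (N : ι → ℕ) [∀ i, NeZero (N i)]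
    (χ : ∀ i, DirichletCharacter ℂ (N i)) (τ : ι → ℝ)
    (hne : ∀ i j, i ≠ j → τ i ≠ τ j ∨
      ∃ n : ℕ, n.Coprime (N i) ∧ n.Coprime (N j) ∧ χ i (n : ZMod (N i)) ≠ χ j (n : ZMod (N j)))
    (hS : ∀ i, ∀ p ∈ S, ∀ j,
      χ i ((p : ℕ) : ZMod (N i)) * β p j * ((p : ℕ) : ℂ) ^ (-((m : ℂ) + 1 + τ i * I)) ≠ 1) :
    (∃ C : ℝ, ∀ᶠ x : ℝ in 𝓝[>] 0,
      ∑ i, (Real.log ‖twistedL β (χ i) ((m : ℂ) + 1 + τ i * I + x)‖) ^ 2 ≤
        Real.log (1 / x) * Real.log ‖selfL β S (2 * (m : ℂ) + 1 + x)‖ + C * Real.log (1 / x)) ∧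
    (∀ k : ι → ℤ, (∀ i, HasOrderAt (twistedL β (χ i)) ((m : ℂ) + 1 + τ i * I) (k i)) →
      ∑ i, (k i) ^ 2 ≤ (Fintype.card J : ℤ) ^ 2 ∧
      ∀ M : ℤ, HasOrderAt (selfL β S) (2 * (m : ℂ) + 1) (-M) → ∑ i, (k i) ^ 2 ≤ M) := by
  have h1 := repulsion m β S hβ N χ τ hne hS
  refine ⟨h1, fun k hk => ?_⟩
  obtain ⟨C, hC⟩ := h1
  have hΛ := log_one_div_tendsto
  have hlim : Tendsto (fun x : ℝ =>
      ∑ i, (Real.log ‖twistedL β (χ i) ((m : ℂ) + 1 + τ i * I + x)‖ / Real.log (1 / x)) ^ 2)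
      (𝓝[>] 0) (𝓝 (∑ i, (-(k i : ℝ)) ^ 2)) :=
    tendsto_finsetSum _ fun i _ => ((hk i).log_tendsto).pow 2
  have hC0 : Tendsto (fun x : ℝ => C / Real.log (1 / x)) (𝓝[>] 0) (𝓝 0) :=
    tendsto_const_nhds.div_atTop hΛ
  have key : ∀ᶠ x : ℝ in 𝓝[>] 0,
      ∑ i, (Real.log ‖twistedL β (χ i) ((m : ℂ) + 1 + τ i * I + x)‖ / Real.log (1 / x)) ^ 2 ≤
      Real.log ‖selfL β S (2 * (m : ℂ) + 1 + x)‖ / Real.log (1 / x) + C / Real.log (1 / x) := by
    filter_upwards [hC, hΛ.eventually_ge_atTop 1] with x hx h1x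
    have hpos : 0 < Real.log (1 / x) := by linarith
    have e : ∑ i, (Real.log ‖twistedL β (χ i) ((m : ℂ) + 1 + τ i * I + x)‖ /
        Real.log (1 / x)) ^ 2 =
        (∑ i, (Real.log ‖twistedL β (χ i) ((m : ℂ) + 1 + τ i * I + x)‖) ^ 2) /
          (Real.log (1 / x)) ^ 2 := by
      rw [Finset.sum_div]
      exact Finset.sum_congr rfl fun i _ => by rw [div_pow]
    rw [e, ← add_div, div_le_div_iff₀ (by positivity) hpos]
    calc (∑ i, (Real.log ‖twistedL β (χ i) ((m : ℂ) + 1 + τ i * I + x)‖) ^ 2) *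
          Real.log (1 / x) ≤ (Real.log (1 / x) * Real.log ‖selfL β S (2 * (m : ℂ) + 1 + x)‖ +
          C * Real.log (1 / x)) * Real.log (1 / x) := mul_le_mul_of_nonneg_right hx hpos.le
      _ = _ := by ring
  have hsq : ∑ i, (-(k i : ℝ)) ^ 2 = ((∑ i, (k i) ^ 2 : ℤ) : ℝ) := by
    push_cast
    exact Finset.sum_congr rfl fun i _ => by ring
  rw [hsq] at hlim
  refine ⟨?_, fun M hM => ?_⟩
  · obtain ⟨D, hD⟩ := self_le m β S hβ
    have hD0 : Tendsto (fun x : ℝ => D / Real.log (1 / x)) (𝓝[>] 0) (𝓝 0) :=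
      tendsto_const_nhds.div_atTop hΛ
    have hup : Tendsto (fun x : ℝ => (Fintype.card J : ℝ) ^ 2 + D / Real.log (1 / x) +
        C / Real.log (1 / x)) (𝓝[>] 0) (𝓝 ((Fintype.card J : ℝ) ^ 2 + 0 + 0)) :=
      (tendsto_const_nhds.add hD0).add hC0
    have hle := le_of_tendsto_of_tendsto hlim hup (by
      filter_upwards [key, hD, hΛ.eventually_ge_atTop 1] with x hx hDx h1x
      have hpos : 0 < Real.log (1 / x) := by linarith
      refine hx.trans (add_le_add ?_ le_rfl)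
      rw [div_le_iff₀ hpos, add_mul, div_mul_cancel₀ _ hpos.ne']
      exact hDx)
    rw [add_zero, add_zero] at hle
    exact_mod_cast hle
  · have hM' := hM.log_tendsto
    have hup := hM'.add hC0
    have hle := le_of_tendsto_of_tendsto hlim hup key
    rw [add_zero] at hle
    push_cast at hle
    rw [neg_neg] at hle
    exact_mod_cast hle

end Pool.Agent.Results.MP_058a58_ag.TwistRepulsion
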